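import Pool.Agent.Strip051.Box.C2
import Pool.Agent.Strip051.Box.S30
import Pool.Agent.Strip051.LB.Fc.F2

/-! # LINE tight chart ChB03V1_mm_202 -/

namespace Pool.Agent.Strip051.LB.ChB03V1_mm_202

open Pool.Agent.Strip051.Box Pool.Agent.Strip051.Box2

open Pool.Agent.Strip051.LB.Fc Pool.Agent.Strip051.LB.Fc.F2 Pool.Agent.Strip051.LB.Fn Pool.Agent.Strip051.LB.Fn.F2

/-- coordinates of a point of the box -/
def In (b : Bx) (E : Pt) (x1 x2 : ℝ) : Prop :=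
  (S : ℝ) * x1 = ((b.p1 : ℝ) - b.n1) + b.q1 * E.e1 ∧ (S : ℝ) * x2 = ((b.p2 : ℝ) - b.n2) + b.q2 * E.e2

variable {b : Bx} {E : Pt} {x1 x2 : ℝ}

def t0 (b : Bx) : TM := X1 b
noncomputable def v0 (x1 _x2 : ℝ) : ℝ := x1
theorem h0 (h : In b E x1 x2) : Enc S E (t0 b) (v0 x1 x2) := enc_X1 h.1

def t1 (b : Bx) : TM := X2 b
noncomputable def v1 (_x1 x2 : ℝ) : ℝ := x2
theorem h1 (h : In b E x1 x2) : Enc S E (t1 b) (v1 x1 x2) := enc_X2 h.2

def t2 (_b : Bx) : TM := tconst 1859775393 0 1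
noncomputable def v2 (_x1 _x2 : ℝ) : ℝ := Real.sqrt ((3 : ℕ) : ℝ)
theorem h2 (_h : In b E x1 x2) : Enc S E (t2 b) (v2 x1 x2) := enc_sqrtn E (by decide) (by decide)

def t3 (b : Bx) : TM := tscale 1 2 (t2 b)
noncomputable def v3 (x1 x2 : ℝ) : ℝ := ((1 : ℕ) : ℝ) / ((2 : ℕ) : ℝ) * v2 x1 x2
theorem h3 (h : In b E x1 x2) : Enc S E (t3 b) (v3 x1 x2) := enc_scale 1 (by norm_num) (h2 h)

def t4 (b : Bx) : TM := tsq S (t0 b)
noncomputable def v4 (x1 x2 : ℝ) : ℝ := (v0 x1 x2) ^ 2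
theorem h4 (h : In b E x1 x2) : Enc S E (t4 b) (v4 x1 x2) := enc_sq hS (h0 h)

def t5 (_b : Bx) : TM := tconst (Nat.mul 1 S) 0 0
noncomputable def v5 (_x1 _x2 : ℝ) : ℝ := ((1 : ℕ) : ℝ)
theorem h5 (_h : In b E x1 x2) : Enc S E (t5 b) (v5 x1 x2) := enc_nc E 1

def t6 (b : Bx) : TM := tsub (t5 b) (t4 b)
noncomputable def v6 (x1 x2 : ℝ) : ℝ := v5 x1 x2 - v4 x1 x2
theorem h6 (h : In b E x1 x2) : Enc S E (t6 b) (v6 x1 x2) := enc_sub (h5 h) (h4 h)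

def t7 (b : Bx) : TM := tsqrt S (t6 b)
noncomputable def v7 (x1 x2 : ℝ) : ℝ := Real.sqrt (v6 x1 x2)
theorem h7 (h : In b E x1 x2) : Enc S E (t7 b) (v7 x1 x2) := enc_sqrt hS (h6 h)

def t9 (_b : Bx) : TM := tconst (Nat.div (Nat.mul 1 S) 2) 0 1
noncomputable def v9 (_x1 _x2 : ℝ) : ℝ := ((1 : ℕ) : ℝ) / ((2 : ℕ) : ℝ)
theorem h9 (_h : In b E x1 x2) : Enc S E (t9 b) (v9 x1 x2) := enc_rat E 1 (by norm_num)

def t10 (b : Bx) : TM := tscale 1 2 (t0 b)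
noncomputable def v10 (x1 x2 : ℝ) : ℝ := ((1 : ℕ) : ℝ) / ((2 : ℕ) : ℝ) * v0 x1 x2
theorem h10 (h : In b E x1 x2) : Enc S E (t10 b) (v10 x1 x2) := enc_scale 1 (by norm_num) (h0 h)

def t11 (b : Bx) : TM := tmul S (t7 b) (t3 b)
noncomputable def v11 (x1 x2 : ℝ) : ℝ := v7 x1 x2 * v3 x1 x2
theorem h11 (h : In b E x1 x2) : Enc S E (t11 b) (v11 x1 x2) := enc_mul hS (h7 h) (h3 h)

def t13 (b : Bx) : TM := tscale 1 2 (t7 b)
noncomputable def v13 (x1 x2 : ℝ) : ℝ := ((1 : ℕ) : ℝ) / ((2 : ℕ) : ℝ) * v7 x1 x2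
theorem h13 (h : In b E x1 x2) : Enc S E (t13 b) (v13 x1 x2) := enc_scale 1 (by norm_num) (h7 h)

def t14 (b : Bx) : TM := tmul S (t0 b) (t3 b)
noncomputable def v14 (x1 x2 : ℝ) : ℝ := v0 x1 x2 * v3 x1 x2
theorem h14 (h : In b E x1 x2) : Enc S E (t14 b) (v14 x1 x2) := enc_mul hS (h0 h) (h3 h)

def t16 (b : Bx) : TM := tsub (t14 b) (t13 b)
noncomputable def v16 (x1 x2 : ℝ) : ℝ := v14 x1 x2 - v13 x1 x2
theorem h16 (h : In b E x1 x2) : Enc S E (t16 b) (v16 x1 x2) := enc_sub (h14 h) (h13 h)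

def t17 (b : Bx) : TM := tadd (t11 b) (t10 b)
noncomputable def v17 (x1 x2 : ℝ) : ℝ := v11 x1 x2 + v10 x1 x2
theorem h17 (h : In b E x1 x2) : Enc S E (t17 b) (v17 x1 x2) := enc_add (h11 h) (h10 h)

def t18 (b : Bx) : TM := tmul S (t16 b) (t2 b)
noncomputable def v18 (x1 x2 : ℝ) : ℝ := v16 x1 x2 * v2 x1 x2
theorem h18 (h : In b E x1 x2) : Enc S E (t18 b) (v18 x1 x2) := enc_mul hS (h16 h) (h2 h)

def t19 (b : Bx) : TM := tmul S (t17 b) (t2 b)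
noncomputable def v19 (x1 x2 : ℝ) : ℝ := v17 x1 x2 * v2 x1 x2
theorem h19 (h : In b E x1 x2) : Enc S E (t19 b) (v19 x1 x2) := enc_mul hS (h17 h) (h2 h)

def t20 (b : Bx) : TM := tsub (t1 b) (t18 b)
noncomputable def v20 (x1 x2 : ℝ) : ℝ := v1 x1 x2 - v18 x1 x2
theorem h20 (h : In b E x1 x2) : Enc S E (t20 b) (v20 x1 x2) := enc_sub (h1 h) (h18 h)

def t21 (b : Bx) : TM := tsq S (t1 b)
noncomputable def v21 (x1 x2 : ℝ) : ℝ := (v1 x1 x2) ^ 2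
theorem h21 (h : In b E x1 x2) : Enc S E (t21 b) (v21 x1 x2) := enc_sq hS (h1 h)

def t22 (_b : Bx) : TM := tconst (Nat.mul 3 S) 0 0
noncomputable def v22 (_x1 _x2 : ℝ) : ℝ := ((3 : ℕ) : ℝ)
theorem h22 (_h : In b E x1 x2) : Enc S E (t22 b) (v22 x1 x2) := enc_nc E 3

def t23 (b : Bx) : TM := tsub (t22 b) (t21 b)
noncomputable def v23 (x1 x2 : ℝ) : ℝ := v22 x1 x2 - v21 x1 x2
theorem h23 (h : In b E x1 x2) : Enc S E (t23 b) (v23 x1 x2) := enc_sub (h22 h) (h21 h)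

def t24 (b : Bx) : TM := tsqrt S (t23 b)
noncomputable def v24 (x1 x2 : ℝ) : ℝ := Real.sqrt (v23 x1 x2)
theorem h24 (h : In b E x1 x2) : Enc S E (t24 b) (v24 x1 x2) := enc_sqrt hS (h23 h)

def t25 (b : Bx) : TM := tsub (t1 b) (t0 b)
noncomputable def v25 (x1 x2 : ℝ) : ℝ := v1 x1 x2 - v0 x1 x2
theorem h25 (h : In b E x1 x2) : Enc S E (t25 b) (v25 x1 x2) := enc_sub (h1 h) (h0 h)

def t26 (b : Bx) : TM := tsub (t24 b) (t7 b)
noncomputable def v26 (x1 x2 : ℝ) : ℝ := v24 x1 x2 - v7 x1 x2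
theorem h26 (h : In b E x1 x2) : Enc S E (t26 b) (v26 x1 x2) := enc_sub (h24 h) (h7 h)

def t27 (b : Bx) : TM := tsub (t18 b) (t1 b)
noncomputable def v27 (x1 x2 : ℝ) : ℝ := v18 x1 x2 - v1 x1 x2
theorem h27 (h : In b E x1 x2) : Enc S E (t27 b) (v27 x1 x2) := enc_sub (h18 h) (h1 h)

def t33 (b : Bx) : TM := tsub (t22 b) (t1 b)
noncomputable def v33 (x1 x2 : ℝ) : ℝ := v22 x1 x2 - v1 x1 x2
theorem h33 (h : In b E x1 x2) : Enc S E (t33 b) (v33 x1 x2) := enc_sub (h22 h) (h1 h)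

def t34 (b : Bx) : TM := tmul S (t2 b) (t24 b)
noncomputable def v34 (x1 x2 : ℝ) : ℝ := v2 x1 x2 * v24 x1 x2
theorem h34 (h : In b E x1 x2) : Enc S E (t34 b) (v34 x1 x2) := enc_mul hS (h2 h) (h24 h)

def t35 (b : Bx) : TM := tsub (t33 b) (t34 b)
noncomputable def v35 (x1 x2 : ℝ) : ℝ := v33 x1 x2 - v34 x1 x2
theorem h35 (h : In b E x1 x2) : Enc S E (t35 b) (v35 x1 x2) := enc_sub (h33 h) (h34 h)

def t37 (b : Bx) : TM := tsub (t2 b) (t24 b)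
noncomputable def v37 (x1 x2 : ℝ) : ℝ := v2 x1 x2 - v24 x1 x2
theorem h37 (h : In b E x1 x2) : Enc S E (t37 b) (v37 x1 x2) := enc_sub (h2 h) (h24 h)

def t38 (b : Bx) : TM := tnat 4 (t37 b)
noncomputable def v38 (x1 x2 : ℝ) : ℝ := ((4 : ℕ) : ℝ) * v37 x1 x2
theorem h38 (h : In b E x1 x2) : Enc S E (t38 b) (v38 x1 x2) := enc_nat 4 (h37 h)

def t39 (b : Bx) : TM := tinv S (t38 b)
noncomputable def v39 (x1 x2 : ℝ) : ℝ := (v38 x1 x2)⁻¹
theorem h39 (h : In b E x1 x2) : Enc S E (t39 b) (v39 x1 x2) := enc_inv hS (h38 h)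

def t42 (b : Bx) : TM := tsq S (t25 b)
noncomputable def v42 (x1 x2 : ℝ) : ℝ := (v25 x1 x2) ^ 2
theorem h42 (h : In b E x1 x2) : Enc S E (t42 b) (v42 x1 x2) := enc_sq hS (h25 h)

def t43 (b : Bx) : TM := tsq S (t26 b)
noncomputable def v43 (x1 x2 : ℝ) : ℝ := (v26 x1 x2) ^ 2
theorem h43 (h : In b E x1 x2) : Enc S E (t43 b) (v43 x1 x2) := enc_sq hS (h26 h)

def t44 (b : Bx) : TM := tadd (t42 b) (t43 b)
noncomputable def v44 (x1 x2 : ℝ) : ℝ := v42 x1 x2 + v43 x1 x2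
theorem h44 (h : In b E x1 x2) : Enc S E (t44 b) (v44 x1 x2) := enc_add (h42 h) (h43 h)

def t48 (b : Bx) : TM := tsub (t18 b) (t0 b)
noncomputable def v48 (x1 x2 : ℝ) : ℝ := v18 x1 x2 - v0 x1 x2
theorem h48 (h : In b E x1 x2) : Enc S E (t48 b) (v48 x1 x2) := enc_sub (h18 h) (h0 h)

def t50 (b : Bx) : TM := tadd (t25 b) (t48 b)
noncomputable def v50 (x1 x2 : ℝ) : ℝ := v25 x1 x2 + v48 x1 x2
theorem h50 (h : In b E x1 x2) : Enc S E (t50 b) (v50 x1 x2) := enc_add (h25 h) (h48 h)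

def t53 (b : Bx) : TM := tadd (t1 b) (t18 b)
noncomputable def v53 (x1 x2 : ℝ) : ℝ := v1 x1 x2 + v18 x1 x2
theorem h53 (h : In b E x1 x2) : Enc S E (t53 b) (v53 x1 x2) := enc_add (h1 h) (h18 h)

def t56 (b : Bx) : TM := tadd (t24 b) (t19 b)
noncomputable def v56 (x1 x2 : ℝ) : ℝ := v24 x1 x2 + v19 x1 x2
theorem h56 (h : In b E x1 x2) : Enc S E (t56 b) (v56 x1 x2) := enc_add (h24 h) (h19 h)

def t57 (b : Bx) : TM := tinv S (t56 b)
noncomputable def v57 (x1 x2 : ℝ) : ℝ := (v56 x1 x2)⁻¹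
theorem h57 (h : In b E x1 x2) : Enc S E (t57 b) (v57 x1 x2) := enc_inv hS (h56 h)

def t58 (b : Bx) : TM := tmul S (t53 b) (t57 b)
noncomputable def v58 (x1 x2 : ℝ) : ℝ := v53 x1 x2 * v57 x1 x2
theorem h58 (h : In b E x1 x2) : Enc S E (t58 b) (v58 x1 x2) := enc_mul hS (h53 h) (h57 h)

def t59 (b : Bx) : TM := tsub (t19 b) (t7 b)
noncomputable def v59 (x1 x2 : ℝ) : ℝ := v19 x1 x2 - v7 x1 x2
theorem h59 (h : In b E x1 x2) : Enc S E (t59 b) (v59 x1 x2) := enc_sub (h19 h) (h7 h)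

def t61 (b : Bx) : TM := tadd (t26 b) (t59 b)
noncomputable def v61 (x1 x2 : ℝ) : ℝ := v26 x1 x2 + v59 x1 x2
theorem h61 (h : In b E x1 x2) : Enc S E (t61 b) (v61 x1 x2) := enc_add (h26 h) (h59 h)

def t62 (b : Bx) : TM := tmul S (t58 b) (t61 b)
noncomputable def v62 (x1 x2 : ℝ) : ℝ := v58 x1 x2 * v61 x1 x2
theorem h62 (h : In b E x1 x2) : Enc S E (t62 b) (v62 x1 x2) := enc_mul hS (h58 h) (h61 h)

def t64 (b : Bx) : TM := tsub (t62 b) (t50 b)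
noncomputable def v64 (x1 x2 : ℝ) : ℝ := v62 x1 x2 - v50 x1 x2
theorem h64 (h : In b E x1 x2) : Enc S E (t64 b) (v64 x1 x2) := enc_sub (h62 h) (h50 h)

def t66 (b : Bx) : TM := tsub (t0 b) (t1 b)
noncomputable def v66 (x1 x2 : ℝ) : ℝ := v0 x1 x2 - v1 x1 x2
theorem h66 (h : In b E x1 x2) : Enc S E (t66 b) (v66 x1 x2) := enc_sub (h0 h) (h1 h)

def t67 (b : Bx) : TM := tsub (t5 b) (t43 b)
noncomputable def v67 (x1 x2 : ℝ) : ℝ := v5 x1 x2 - v43 x1 x2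
theorem h67 (h : In b E x1 x2) : Enc S E (t67 b) (v67 x1 x2) := enc_sub (h5 h) (h43 h)

def t68 (b : Bx) : TM := tsqrt S (t67 b)
noncomputable def v68 (x1 x2 : ℝ) : ℝ := Real.sqrt (v67 x1 x2)
theorem h68 (h : In b E x1 x2) : Enc S E (t68 b) (v68 x1 x2) := enc_sqrt hS (h67 h)

def t69 (b : Bx) : TM := tsub (t11 b) (t10 b)
noncomputable def v69 (x1 x2 : ℝ) : ℝ := v11 x1 x2 - v10 x1 x2
theorem h69 (h : In b E x1 x2) : Enc S E (t69 b) (v69 x1 x2) := enc_sub (h11 h) (h10 h)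

def t70 (b : Bx) : TM := tmul S (t2 b) (t26 b)
noncomputable def v70 (x1 x2 : ℝ) : ℝ := v2 x1 x2 * v26 x1 x2
theorem h70 (h : In b E x1 x2) : Enc S E (t70 b) (v70 x1 x2) := enc_mul hS (h2 h) (h26 h)

def t72 (b : Bx) : TM := tadd (t5 b) (t68 b)
noncomputable def v72 (x1 x2 : ℝ) : ℝ := v5 x1 x2 + v68 x1 x2
theorem h72 (h : In b E x1 x2) : Enc S E (t72 b) (v72 x1 x2) := enc_add (h5 h) (h68 h)

def t74 (b : Bx) : TM := tsub (t72 b) (t70 b)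
noncomputable def v74 (x1 x2 : ℝ) : ℝ := v72 x1 x2 - v70 x1 x2
theorem h74 (h : In b E x1 x2) : Enc S E (t74 b) (v74 x1 x2) := enc_sub (h72 h) (h70 h)

def t75 (b : Bx) : TM := tinv S (t74 b)
noncomputable def v75 (x1 x2 : ℝ) : ℝ := (v74 x1 x2)⁻¹
theorem h75 (h : In b E x1 x2) : Enc S E (t75 b) (v75 x1 x2) := enc_inv hS (h74 h)

def t79 (b : Bx) : TM := tadd (t68 b) (t69 b)
noncomputable def v79 (x1 x2 : ℝ) : ℝ := v68 x1 x2 + v69 x1 x2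
theorem h79 (h : In b E x1 x2) : Enc S E (t79 b) (v79 x1 x2) := enc_add (h68 h) (h69 h)

def t80 (b : Bx) : TM := tinv S (t79 b)
noncomputable def v80 (x1 x2 : ℝ) : ℝ := (v79 x1 x2)⁻¹
theorem h80 (h : In b E x1 x2) : Enc S E (t80 b) (v80 x1 x2) := enc_inv hS (h79 h)

def t81 (b : Bx) : TM := tmul S (t62 b) (t80 b)
noncomputable def v81 (x1 x2 : ℝ) : ℝ := v62 x1 x2 * v80 x1 x2
theorem h81 (h : In b E x1 x2) : Enc S E (t81 b) (v81 x1 x2) := enc_mul hS (h62 h) (h80 h)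

def t82 (b : Bx) : TM := tneg (t81 b)
noncomputable def v82 (x1 x2 : ℝ) : ℝ := -(v81 x1 x2)
theorem h82 (h : In b E x1 x2) : Enc S E (t82 b) (v82 x1 x2) := enc_neg (h81 h)

def t83 (b : Bx) : TM := tmul S (t2 b) (t59 b)
noncomputable def v83 (x1 x2 : ℝ) : ℝ := v2 x1 x2 * v59 x1 x2
theorem h83 (h : In b E x1 x2) : Enc S E (t83 b) (v83 x1 x2) := enc_mul hS (h2 h) (h59 h)

def t84 (b : Bx) : TM := tmul S (t2 b) (t58 b)
noncomputable def v84 (x1 x2 : ℝ) : ℝ := v2 x1 x2 * v58 x1 x2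
theorem h84 (h : In b E x1 x2) : Enc S E (t84 b) (v84 x1 x2) := enc_mul hS (h2 h) (h58 h)

def t85 (b : Bx) : TM := tsub (t69 b) (t83 b)
noncomputable def v85 (x1 x2 : ℝ) : ℝ := v69 x1 x2 - v83 x1 x2
theorem h85 (h : In b E x1 x2) : Enc S E (t85 b) (v85 x1 x2) := enc_sub (h69 h) (h83 h)

def t86 (b : Bx) : TM := tsub (t82 b) (t84 b)
noncomputable def v86 (x1 x2 : ℝ) : ℝ := v82 x1 x2 - v84 x1 x2
theorem h86 (h : In b E x1 x2) : Enc S E (t86 b) (v86 x1 x2) := enc_sub (h82 h) (h84 h)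

def t87 (b : Bx) : TM := tadd (t5 b) (t69 b)
noncomputable def v87 (x1 x2 : ℝ) : ℝ := v5 x1 x2 + v69 x1 x2
theorem h87 (h : In b E x1 x2) : Enc S E (t87 b) (v87 x1 x2) := enc_add (h5 h) (h69 h)

def t88 (b : Bx) : TM := tmul S (t85 b) (t87 b)
noncomputable def v88 (x1 x2 : ℝ) : ℝ := v85 x1 x2 * v87 x1 x2
theorem h88 (h : In b E x1 x2) : Enc S E (t88 b) (v88 x1 x2) := enc_mul hS (h85 h) (h87 h)

def t89 (b : Bx) : TM := tmul S (t86 b) (t72 b)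
noncomputable def v89 (x1 x2 : ℝ) : ℝ := v86 x1 x2 * v72 x1 x2
theorem h89 (h : In b E x1 x2) : Enc S E (t89 b) (v89 x1 x2) := enc_mul hS (h86 h) (h72 h)

def t90 (b : Bx) : TM := tmul S (t85 b) (t81 b)
noncomputable def v90 (x1 x2 : ℝ) : ℝ := v85 x1 x2 * v81 x1 x2
theorem h90 (h : In b E x1 x2) : Enc S E (t90 b) (v90 x1 x2) := enc_mul hS (h85 h) (h81 h)

def t92 (b : Bx) : TM := tsub (t89 b) (t90 b)
noncomputable def v92 (x1 x2 : ℝ) : ℝ := v89 x1 x2 - v90 x1 x2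
theorem h92 (h : In b E x1 x2) : Enc S E (t92 b) (v92 x1 x2) := enc_sub (h89 h) (h90 h)

def t93 (b : Bx) : TM := tsub (t87 b) (t83 b)
noncomputable def v93 (x1 x2 : ℝ) : ℝ := v87 x1 x2 - v83 x1 x2
theorem h93 (h : In b E x1 x2) : Enc S E (t93 b) (v93 x1 x2) := enc_sub (h87 h) (h83 h)

def t94 (b : Bx) : TM := tinv S (t93 b)
noncomputable def v94 (x1 x2 : ℝ) : ℝ := (v93 x1 x2)⁻¹
theorem h94 (h : In b E x1 x2) : Enc S E (t94 b) (v94 x1 x2) := enc_inv hS (h93 h)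

def t95 (b : Bx) : TM := tmul S (t75 b) (t94 b)
noncomputable def v95 (x1 x2 : ℝ) : ℝ := v75 x1 x2 * v94 x1 x2
theorem h95 (h : In b E x1 x2) : Enc S E (t95 b) (v95 x1 x2) := enc_mul hS (h75 h) (h94 h)

def t96 (b : Bx) : TM := tmul S (t86 b) (t95 b)
noncomputable def v96 (x1 x2 : ℝ) : ℝ := v86 x1 x2 * v95 x1 x2
theorem h96 (h : In b E x1 x2) : Enc S E (t96 b) (v96 x1 x2) := enc_mul hS (h86 h) (h95 h)

def t99 (b : Bx) : TM := tmul S (t92 b) (t75 b)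
noncomputable def v99 (x1 x2 : ℝ) : ℝ := v92 x1 x2 * v75 x1 x2
theorem h99 (h : In b E x1 x2) : Enc S E (t99 b) (v99 x1 x2) := enc_mul hS (h92 h) (h75 h)

def t100 (b : Bx) : TM := tmul S (t88 b) (t96 b)
noncomputable def v100 (x1 x2 : ℝ) : ℝ := v88 x1 x2 * v96 x1 x2
theorem h100 (h : In b E x1 x2) : Enc S E (t100 b) (v100 x1 x2) := enc_mul hS (h88 h) (h96 h)

def t102 (b : Bx) : TM := tsub (t99 b) (t100 b)
noncomputable def v102 (x1 x2 : ℝ) : ℝ := v99 x1 x2 - v100 x1 x2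
theorem h102 (h : In b E x1 x2) : Enc S E (t102 b) (v102 x1 x2) := enc_sub (h99 h) (h100 h)

def t103 (b : Bx) : TM := kxq0_t (t66 b) (t26 b)
noncomputable def v103 (x1 x2 : ℝ) : ℝ := kxq0_v (v66 x1 x2) (v26 x1 x2)
theorem h103 (h : In b E x1 x2) : Enc S E (t103 b) (v103 x1 x2) := kxq0_enc (h66 h) (h26 h)

def t104 (b : Bx) : TM := tadd (t66 b) (t68 b)
noncomputable def v104 (x1 x2 : ℝ) : ℝ := v66 x1 x2 + v68 x1 x2
theorem h104 (h : In b E x1 x2) : Enc S E (t104 b) (v104 x1 x2) := enc_add (h66 h) (h68 h)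

def t105 (b : Bx) : TM := f2m_t (t26 b)
noncomputable def v105 (x1 x2 : ℝ) : ℝ := f2m_v (v26 x1 x2)
theorem h105 (h : In b E x1 x2) : Enc S E (t105 b) (v105 x1 x2) := f2m_enc (h26 h)

def t106 (b : Bx) : TM := tsub (t105 b) (t66 b)
noncomputable def v106 (x1 x2 : ℝ) : ℝ := v105 x1 x2 - v66 x1 x2
theorem h106 (h : In b E x1 x2) : Enc S E (t106 b) (v106 x1 x2) := enc_sub (h105 h) (h66 h)

def t112 (b : Bx) : TM := tmul S (t64 b) (t103 b)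
noncomputable def v112 (x1 x2 : ℝ) : ℝ := v64 x1 x2 * v103 x1 x2
theorem h112 (h : In b E x1 x2) : Enc S E (t112 b) (v112 x1 x2) := enc_mul hS (h64 h) (h103 h)

def t113 (b : Bx) : TM := tinv S (t104 b)
noncomputable def v113 (x1 x2 : ℝ) : ℝ := (v104 x1 x2)⁻¹
theorem h113 (h : In b E x1 x2) : Enc S E (t113 b) (v113 x1 x2) := enc_inv hS (h104 h)

def t114 (b : Bx) : TM := tmul S (t112 b) (t113 b)
noncomputable def v114 (x1 x2 : ℝ) : ℝ := v112 x1 x2 * v113 x1 x2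
theorem h114 (h : In b E x1 x2) : Enc S E (t114 b) (v114 x1 x2) := enc_mul hS (h112 h) (h113 h)

def t115 (b : Bx) : TM := tadd (t102 b) (t114 b)
noncomputable def v115 (x1 x2 : ℝ) : ℝ := v102 x1 x2 + v114 x1 x2
theorem h115 (h : In b E x1 x2) : Enc S E (t115 b) (v115 x1 x2) := enc_add (h102 h) (h114 h)

def t117 (b : Bx) : TM := tmul S (t0 b) (t24 b)
noncomputable def v117 (x1 x2 : ℝ) : ℝ := v0 x1 x2 * v24 x1 x2
theorem h117 (h : In b E x1 x2) : Enc S E (t117 b) (v117 x1 x2) := enc_mul hS (h0 h) (h24 h)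

def t118 (b : Bx) : TM := tmul S (t1 b) (t7 b)
noncomputable def v118 (x1 x2 : ℝ) : ℝ := v1 x1 x2 * v7 x1 x2
theorem h118 (h : In b E x1 x2) : Enc S E (t118 b) (v118 x1 x2) := enc_mul hS (h1 h) (h7 h)

def t119 (b : Bx) : TM := tsub (t117 b) (t118 b)
noncomputable def v119 (x1 x2 : ℝ) : ℝ := v117 x1 x2 - v118 x1 x2
theorem h119 (h : In b E x1 x2) : Enc S E (t119 b) (v119 x1 x2) := enc_sub (h117 h) (h118 h)

def t120 (b : Bx) : TM := tinv S (t2 b)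
noncomputable def v120 (x1 x2 : ℝ) : ℝ := (v2 x1 x2)⁻¹
theorem h120 (h : In b E x1 x2) : Enc S E (t120 b) (v120 x1 x2) := enc_inv hS (h2 h)

def t121 (b : Bx) : TM := tmul S (t119 b) (t120 b)
noncomputable def v121 (x1 x2 : ℝ) : ℝ := v119 x1 x2 * v120 x1 x2
theorem h121 (h : In b E x1 x2) : Enc S E (t121 b) (v121 x1 x2) := enc_mul hS (h119 h) (h120 h)

def t122 (b : Bx) : TM := tsub (t121 b) (t9 b)
noncomputable def v122 (x1 x2 : ℝ) : ℝ := v121 x1 x2 - v9 x1 x2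
theorem h122 (h : In b E x1 x2) : Enc S E (t122 b) (v122 x1 x2) := enc_sub (h121 h) (h9 h)

def t124 (b : Bx) : TM := tmul S (t0 b) (t58 b)
noncomputable def v124 (x1 x2 : ℝ) : ℝ := v0 x1 x2 * v58 x1 x2
theorem h124 (h : In b E x1 x2) : Enc S E (t124 b) (v124 x1 x2) := enc_mul hS (h0 h) (h58 h)

def t128 (b : Bx) : TM := tadd (t124 b) (t7 b)
noncomputable def v128 (x1 x2 : ℝ) : ℝ := v124 x1 x2 + v7 x1 x2
theorem h128 (h : In b E x1 x2) : Enc S E (t128 b) (v128 x1 x2) := enc_add (h124 h) (h7 h)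

def t130 (b : Bx) : TM := tmul S (t128 b) (t120 b)
noncomputable def v130 (x1 x2 : ℝ) : ℝ := v128 x1 x2 * v120 x1 x2
theorem h130 (h : In b E x1 x2) : Enc S E (t130 b) (v130 x1 x2) := enc_mul hS (h128 h) (h120 h)

def t132 (b : Bx) : TM := tsub (t7 b) (t3 b)
noncomputable def v132 (x1 x2 : ℝ) : ℝ := v7 x1 x2 - v3 x1 x2
theorem h132 (h : In b E x1 x2) : Enc S E (t132 b) (v132 x1 x2) := enc_sub (h7 h) (h3 h)

def t134 (b : Bx) : TM := tmul S (t2 b) (t18 b)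
noncomputable def v134 (x1 x2 : ℝ) : ℝ := v2 x1 x2 * v18 x1 x2
theorem h134 (h : In b E x1 x2) : Enc S E (t134 b) (v134 x1 x2) := enc_mul hS (h2 h) (h18 h)

def t136 (b : Bx) : TM := tneg (t134 b)
noncomputable def v136 (x1 x2 : ℝ) : ℝ := -(v134 x1 x2)
theorem h136 (h : In b E x1 x2) : Enc S E (t136 b) (v136 x1 x2) := enc_neg (h134 h)

def t137 (b : Bx) : TM := tsub (t136 b) (t19 b)
noncomputable def v137 (x1 x2 : ℝ) : ℝ := v136 x1 x2 - v19 x1 x2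
theorem h137 (h : In b E x1 x2) : Enc S E (t137 b) (v137 x1 x2) := enc_sub (h136 h) (h19 h)

def t138 (b : Bx) : TM := tsub (t2 b) (t58 b)
noncomputable def v138 (x1 x2 : ℝ) : ℝ := v2 x1 x2 - v58 x1 x2
theorem h138 (h : In b E x1 x2) : Enc S E (t138 b) (v138 x1 x2) := enc_sub (h2 h) (h58 h)

def t139 (b : Bx) : TM := tsub (t22 b) (t18 b)
noncomputable def v139 (x1 x2 : ℝ) : ℝ := v22 x1 x2 - v18 x1 x2
theorem h139 (h : In b E x1 x2) : Enc S E (t139 b) (v139 x1 x2) := enc_sub (h22 h) (h18 h)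

def t140 (b : Bx) : TM := tmul S (t2 b) (t19 b)
noncomputable def v140 (x1 x2 : ℝ) : ℝ := v2 x1 x2 * v19 x1 x2
theorem h140 (h : In b E x1 x2) : Enc S E (t140 b) (v140 x1 x2) := enc_mul hS (h2 h) (h19 h)

def t141 (b : Bx) : TM := tsub (t139 b) (t140 b)
noncomputable def v141 (x1 x2 : ℝ) : ℝ := v139 x1 x2 - v140 x1 x2
theorem h141 (h : In b E x1 x2) : Enc S E (t141 b) (v141 x1 x2) := enc_sub (h139 h) (h140 h)

def t142 (b : Bx) : TM := tsub (t5 b) (t84 b)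
noncomputable def v142 (x1 x2 : ℝ) : ℝ := v5 x1 x2 - v84 x1 x2
theorem h142 (h : In b E x1 x2) : Enc S E (t142 b) (v142 x1 x2) := enc_sub (h5 h) (h84 h)

def t143 (b : Bx) : TM := tmul S (t137 b) (t141 b)
noncomputable def v143 (x1 x2 : ℝ) : ℝ := v137 x1 x2 * v141 x1 x2
theorem h143 (h : In b E x1 x2) : Enc S E (t143 b) (v143 x1 x2) := enc_mul hS (h137 h) (h141 h)

def t144 (b : Bx) : TM := tmul S (t138 b) (t35 b)
noncomputable def v144 (x1 x2 : ℝ) : ℝ := v138 x1 x2 * v35 x1 x2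
theorem h144 (h : In b E x1 x2) : Enc S E (t144 b) (v144 x1 x2) := enc_mul hS (h138 h) (h35 h)

def t145 (b : Bx) : TM := tmul S (t137 b) (t142 b)
noncomputable def v145 (x1 x2 : ℝ) : ℝ := v137 x1 x2 * v142 x1 x2
theorem h145 (h : In b E x1 x2) : Enc S E (t145 b) (v145 x1 x2) := enc_mul hS (h137 h) (h142 h)

def t146 (b : Bx) : TM := tadd (t144 b) (t145 b)
noncomputable def v146 (x1 x2 : ℝ) : ℝ := v144 x1 x2 + v145 x1 x2
theorem h146 (h : In b E x1 x2) : Enc S E (t146 b) (v146 x1 x2) := enc_add (h144 h) (h145 h)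

def t147 (b : Bx) : TM := tsub (t2 b) (t19 b)
noncomputable def v147 (x1 x2 : ℝ) : ℝ := v2 x1 x2 - v19 x1 x2
theorem h147 (h : In b E x1 x2) : Enc S E (t147 b) (v147 x1 x2) := enc_sub (h2 h) (h19 h)

def t149 (b : Bx) : TM := tnat 4 (t147 b)
noncomputable def v149 (x1 x2 : ℝ) : ℝ := ((4 : ℕ) : ℝ) * v147 x1 x2
theorem h149 (h : In b E x1 x2) : Enc S E (t149 b) (v149 x1 x2) := enc_nat 4 (h147 h)

def t150 (b : Bx) : TM := tnat 4 (t58 b)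
noncomputable def v150 (x1 x2 : ℝ) : ℝ := ((4 : ℕ) : ℝ) * v58 x1 x2
theorem h150 (h : In b E x1 x2) : Enc S E (t150 b) (v150 x1 x2) := enc_nat 4 (h58 h)

def t152 (b : Bx) : TM := tinv S (t149 b)
noncomputable def v152 (x1 x2 : ℝ) : ℝ := (v149 x1 x2)⁻¹
theorem h152 (h : In b E x1 x2) : Enc S E (t152 b) (v152 x1 x2) := enc_inv hS (h149 h)

def t153 (b : Bx) : TM := tmul S (t39 b) (t152 b)
noncomputable def v153 (x1 x2 : ℝ) : ℝ := v39 x1 x2 * v152 x1 x2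
theorem h153 (h : In b E x1 x2) : Enc S E (t153 b) (v153 x1 x2) := enc_mul hS (h39 h) (h152 h)

def t154 (b : Bx) : TM := tmul S (t150 b) (t153 b)
noncomputable def v154 (x1 x2 : ℝ) : ℝ := v150 x1 x2 * v153 x1 x2
theorem h154 (h : In b E x1 x2) : Enc S E (t154 b) (v154 x1 x2) := enc_mul hS (h150 h) (h153 h)

def t157 (b : Bx) : TM := tmul S (t146 b) (t39 b)
noncomputable def v157 (x1 x2 : ℝ) : ℝ := v146 x1 x2 * v39 x1 x2
theorem h157 (h : In b E x1 x2) : Enc S E (t157 b) (v157 x1 x2) := enc_mul hS (h146 h) (h39 h)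

def t158 (b : Bx) : TM := tmul S (t143 b) (t154 b)
noncomputable def v158 (x1 x2 : ℝ) : ℝ := v143 x1 x2 * v154 x1 x2
theorem h158 (h : In b E x1 x2) : Enc S E (t158 b) (v158 x1 x2) := enc_mul hS (h143 h) (h154 h)

def t159 (b : Bx) : TM := tadd (t157 b) (t158 b)
noncomputable def v159 (x1 x2 : ℝ) : ℝ := v157 x1 x2 + v158 x1 x2
theorem h159 (h : In b E x1 x2) : Enc S E (t159 b) (v159 x1 x2) := enc_add (h157 h) (h158 h)

def t162 (b : Bx) : TM := tsub (t115 b) (t159 b)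
noncomputable def v162 (x1 x2 : ℝ) : ℝ := v115 x1 x2 - v159 x1 x2
theorem h162 (h : In b E x1 x2) : Enc S E (t162 b) (v162 x1 x2) := enc_sub (h115 h) (h159 h)

def t164 (b : Bx) : TM := tmul S (t132 b) (t159 b)
noncomputable def v164 (x1 x2 : ℝ) : ℝ := v132 x1 x2 * v159 x1 x2
theorem h164 (h : In b E x1 x2) : Enc S E (t164 b) (v164 x1 x2) := enc_mul hS (h132 h) (h159 h)

def t165 (b : Bx) : TM := tneg (t164 b)
noncomputable def v165 (x1 x2 : ℝ) : ℝ := -(v164 x1 x2)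
theorem h165 (h : In b E x1 x2) : Enc S E (t165 b) (v165 x1 x2) := enc_neg (h164 h)

def t166 (b : Bx) : TM := tmul S (t58 b) (t0 b)
noncomputable def v166 (x1 x2 : ℝ) : ℝ := v58 x1 x2 * v0 x1 x2
theorem h166 (h : In b E x1 x2) : Enc S E (t166 b) (v166 x1 x2) := enc_mul hS (h58 h) (h0 h)

def t167 (b : Bx) : TM := tsub (t165 b) (t166 b)
noncomputable def v167 (x1 x2 : ℝ) : ℝ := v165 x1 x2 - v166 x1 x2
theorem h167 (h : In b E x1 x2) : Enc S E (t167 b) (v167 x1 x2) := enc_sub (h165 h) (h166 h)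

def t168 (b : Bx) : TM := tmul S (t132 b) (t162 b)
noncomputable def v168 (x1 x2 : ℝ) : ℝ := v132 x1 x2 * v162 x1 x2
theorem h168 (h : In b E x1 x2) : Enc S E (t168 b) (v168 x1 x2) := enc_mul hS (h132 h) (h162 h)

def t169 (b : Bx) : TM := tsub (t167 b) (t168 b)
noncomputable def v169 (x1 x2 : ℝ) : ℝ := v167 x1 x2 - v168 x1 x2
theorem h169 (h : In b E x1 x2) : Enc S E (t169 b) (v169 x1 x2) := enc_sub (h167 h) (h168 h)

def t172 (b : Bx) : TM := tsub (t7 b) (t24 b)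
noncomputable def v172 (x1 x2 : ℝ) : ℝ := v7 x1 x2 - v24 x1 x2
theorem h172 (h : In b E x1 x2) : Enc S E (t172 b) (v172 x1 x2) := enc_sub (h7 h) (h24 h)

def t173 (b : Bx) : TM := tsub (t3 b) (t7 b)
noncomputable def v173 (x1 x2 : ℝ) : ℝ := v3 x1 x2 - v7 x1 x2
theorem h173 (h : In b E x1 x2) : Enc S E (t173 b) (v173 x1 x2) := enc_sub (h3 h) (h7 h)

def t174 (b : Bx) : TM := tsub (t3 b) (t24 b)
noncomputable def v174 (x1 x2 : ℝ) : ℝ := v3 x1 x2 - v24 x1 x2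
theorem h174 (h : In b E x1 x2) : Enc S E (t174 b) (v174 x1 x2) := enc_sub (h3 h) (h24 h)

def t175 (b : Bx) : TM := qn_t (t132 b) (t26 b) (t130 b) (t169 b) (t162 b)
noncomputable def v175 (x1 x2 : ℝ) : ℝ := qn_v (v132 x1 x2) (v26 x1 x2) (v130 x1 x2) (v169 x1 x2) (v162 x1 x2)
theorem h175 (h : In b E x1 x2) : Enc S E (t175 b) (v175 x1 x2) := qn_enc (h132 h) (h26 h) (h130 h) (h169 h) (h162 h)

def t176 (b : Bx) : TM := tscale 3 4 (t2 b)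
noncomputable def v176 (x1 x2 : ℝ) : ℝ := ((3 : ℕ) : ℝ) / ((4 : ℕ) : ℝ) * v2 x1 x2
theorem h176 (h : In b E x1 x2) : Enc S E (t176 b) (v176 x1 x2) := enc_scale 3 (by norm_num) (h2 h)

def t178 (b : Bx) : TM := tsub (t7 b) (t176 b)
noncomputable def v178 (x1 x2 : ℝ) : ℝ := v7 x1 x2 - v176 x1 x2
theorem h178 (h : In b E x1 x2) : Enc S E (t178 b) (v178 x1 x2) := enc_sub (h7 h) (h176 h)

def t179 (b : Bx) : TM := tscale 1 4 (t2 b)
noncomputable def v179 (x1 x2 : ℝ) : ℝ := ((1 : ℕ) : ℝ) / ((4 : ℕ) : ℝ) * v2 x1 x2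
theorem h179 (h : In b E x1 x2) : Enc S E (t179 b) (v179 x1 x2) := enc_scale 1 (by norm_num) (h2 h)

def t181 (b : Bx) : TM := tsub (t26 b) (t179 b)
noncomputable def v181 (x1 x2 : ℝ) : ℝ := v26 x1 x2 - v179 x1 x2
theorem h181 (h : In b E x1 x2) : Enc S E (t181 b) (v181 x1 x2) := enc_sub (h26 h) (h179 h)

def t183 (b : Bx) : TM := tsub (t24 b) (t176 b)
noncomputable def v183 (x1 x2 : ℝ) : ℝ := v24 x1 x2 - v176 x1 x2
theorem h183 (h : In b E x1 x2) : Enc S E (t183 b) (v183 x1 x2) := enc_sub (h24 h) (h176 h)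

def t184 (_b : Bx) : TM := tconst (Nat.div (Nat.mul 1 S) 16) 0 1
noncomputable def v184 (_x1 _x2 : ℝ) : ℝ := ((1 : ℕ) : ℝ) / ((16 : ℕ) : ℝ)
theorem h184 (_h : In b E x1 x2) : Enc S E (t184 b) (v184 x1 x2) := enc_rat E 1 (by norm_num)

def t185 (b : Bx) : TM := tsub (t27 b) (t184 b)
noncomputable def v185 (x1 x2 : ℝ) : ℝ := v27 x1 x2 - v184 x1 x2
theorem h185 (h : In b E x1 x2) : Enc S E (t185 b) (v185 x1 x2) := enc_sub (h27 h) (h184 h)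

def t186 (b : Bx) : TM := tsub (t20 b) (t184 b)
noncomputable def v186 (x1 x2 : ℝ) : ℝ := v20 x1 x2 - v184 x1 x2
theorem h186 (h : In b E x1 x2) : Enc S E (t186 b) (v186 x1 x2) := enc_sub (h20 h) (h184 h)

def t187 (b : Bx) : TM := tsub (t5 b) (t44 b)
noncomputable def v187 (x1 x2 : ℝ) : ℝ := v5 x1 x2 - v44 x1 x2
theorem h187 (h : In b E x1 x2) : Enc S E (t187 b) (v187 x1 x2) := enc_sub (h5 h) (h44 h)

def t188 (b : Bx) : TM := tadd (t122 b) (t9 b)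
noncomputable def v188 (x1 x2 : ℝ) : ℝ := v122 x1 x2 + v9 x1 x2
theorem h188 (h : In b E x1 x2) : Enc S E (t188 b) (v188 x1 x2) := enc_add (h122 h) (h9 h)

def t189 (b : Bx) : TM := tneg (t188 b)
noncomputable def v189 (x1 x2 : ℝ) : ℝ := -(v188 x1 x2)
theorem h189 (h : In b E x1 x2) : Enc S E (t189 b) (v189 x1 x2) := enc_neg (h188 h)

def g0 (b : Bx) : Bool := and (pos (t64 b)) (and (pos (t23 b)) (and (pos (t56 b)) (and (pos (t67 b)) (and (pos (t79 b)) (and (pos (t74 b)) (and (pos (t93 b)) (and (pos (t104 b)) (and (pos (t106 b)) (and (pos (t38 b)) (and (pos (t149 b)) (or (pos (t20 b)) (pos (t175 b)))))))))))))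

def l0 (b : Bx) : Nat := cond (g0 b) 0 (pickb 1 (t175 b) b)

def P0 (x1 x2 : ℝ) : Prop := 0 < v64 x1 x2 ∧ 0 < v23 x1 x2 ∧ 0 < v56 x1 x2 ∧ 0 < v67 x1 x2 ∧ 0 < v79 x1 x2 ∧ 0 < v74 x1 x2 ∧ 0 < v93 x1 x2 ∧ 0 < v104 x1 x2 ∧ 0 < v106 x1 x2 ∧ 0 < v38 x1 x2 ∧ 0 < v149 x1 x2 ∧ (0 < v20 x1 x2 ∨ 0 < v175 x1 x2)

theorem l0_sound (h : In b E x1 x2) (e : l0 b = 0) : P0 x1 x2 := by
  have e1 : g0 b = true := by
    rcases e2 : g0 b with _ | _
    · unfold l0 at e; rw [e2, cond_false] at e; exact absurd e (pickb_ne _ _ _)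
    · rfl
  exact ⟨pos_sound hS (h64 h) (Bool.and_eq_true_iff.mp e1).1, ⟨pos_sound hS (h23 h) (Bool.and_eq_true_iff.mp (Bool.and_eq_true_iff.mp e1).2).1, ⟨pos_sound hS (h56 h) (Bool.and_eq_true_iff.mp (Bool.and_eq_true_iff.mp (Bool.and_eq_true_iff.mp e1).2).2).1, ⟨pos_sound hS (h67 h) (Bool.and_eq_true_iff.mp (Bool.and_eq_true_iff.mp (Bool.and_eq_true_iff.mp (Bool.and_eq_true_iff.mp e1).2).2).2).1, ⟨pos_sound hS (h79 h) (Bool.and_eq_true_iff.mp (Bool.and_eq_true_iff.mp (Bool.and_eq_true_iff.mp (Bool.and_eq_true_iff.mp (Bool.and_eq_true_iff.mp e1).2).2).2).2).1, ⟨pos_sound hS (h74 h) (Bool.and_eq_true_iff.mp (Bool.and_eq_true_iff.mp (Bool.and_eq_true_iff.mp (Bool.and_eq_true_iff.mp (Bool.and_eq_true_iff.mp (Bool.and_eq_true_iff.mp e1).2).2).2).2).2).1, ⟨pos_sound hS (h93 h) (Bool.and_eq_true_iff.mp (Bool.and_eq_true_iff.mp (Bool.and_eq_true_iff.mp (Bool.and_eq_true_iff.mp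 (Bool.and_eq_true_iff.mp (Bool.and_eq_true_iff.mp (Bool.and_eq_true_iff.mp e1).2).2).2).2).2).2).1, ⟨pos_sound hS (h104 h) (Bool.and_eq_true_iff.mp (Bool.and_eq_true_iff.mp (Bool.and_eq_true_iff.mp (Bool.and_eq_true_iff.mp (Bool.and_eq_true_iff.mp (Bool.and_eq_true_iff.mp (Bool.and_eq_true_iff.mp (Bool.and_eq_true_iff.mp e1).2).2).2).2).2).2).2).1, ⟨pos_sound hS (h106 h) (Bool.and_eq_true_iff.mp (Bool.and_eq_true_iff.mp (Bool.and_eq_true_iff.mp (Bool.and_eq_true_iff.mp (Bool.and_eq_true_iff.mp (Bool.and_eq_true_iff.mp (Bool.and_eq_true_iff.mp (Bool.and_eq_true_iff.mp (Bool.and_eq_true_iff.mp e1).2).2).2).2).2).2).2).2).1, ⟨pos_sound hS (h38 h) (Bool.and_eq_true_iff.mp (Bool.and_eq_true_iff.mp (Bool.and_eq_true_iff.mp (Bool.and_eq_true_iff.mp (Bool.and_eq_true_iff.mp (Bool.and_eq_true_iff.mp (Bool.and_eq_true_iff.mp (Bool.and_eq_true_iff.mp (Bool.and_eq_true_iff.mp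 (Bool.and_eq_true_iff.mp e1).2).2).2).2).2).2).2).2).2).1, ⟨pos_sound hS (h149 h) (Bool.and_eq_true_iff.mp (Bool.and_eq_true_iff.mp (Bool.and_eq_true_iff.mp (Bool.and_eq_true_iff.mp (Bool.and_eq_true_iff.mp (Bool.and_eq_true_iff.mp (Bool.and_eq_true_iff.mp (Bool.and_eq_true_iff.mp (Bool.and_eq_true_iff.mp (Bool.and_eq_true_iff.mp (Bool.and_eq_true_iff.mp e1).2).2).2).2).2).2).2).2).2).2).1, ((Bool.or_eq_true_iff.mp (Bool.and_eq_true_iff.mp (Bool.and_eq_true_iff.mp (Bool.and_eq_true_iff.mp (Bool.and_eq_true_iff.mp (Bool.and_eq_true_iff.mp (Bool.and_eq_true_iff.mp (Bool.and_eq_true_iff.mp (Bool.and_eq_true_iff.mp (Bool.and_eq_true_iff.mp (Bool.and_eq_true_iff.mp (Bool.and_eq_true_iff.mp e1).2).2).2).2).2).2).2).2).2).2).2).imp (fun a => pos_sound hS (h20 h) a) (fun a => pos_sound hS (h175 h) a))⟩⟩⟩⟩⟩⟩⟩⟩⟩⟩⟩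

def g1 (b : Bx) : Bool := or (pos (t173 b)) (or (pos (t178 b)) (or (pos (t181 b)) (or (pos (t174 b)) (or (pos (t183 b)) (or (pos (t185 b)) (or (pos (t186 b)) (or (pos (t172 b)) (or (pos (t187 b)) (pos (t189 b))))))))))

def l1 (b : Bx) : Nat := cond (g1 b) 0 (l0 b)

def P1 (x1 x2 : ℝ) : Prop := (0 < v173 x1 x2 ∨ 0 < v178 x1 x2 ∨ 0 < v181 x1 x2 ∨ 0 < v174 x1 x2 ∨ 0 < v183 x1 x2 ∨ 0 < v185 x1 x2 ∨ 0 < v186 x1 x2 ∨ 0 < v172 x1 x2 ∨ 0 < v187 x1 x2 ∨ 0 < v189 x1 x2) ∨ (P0 x1 x2)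

theorem l1_sound (h : In b E x1 x2) (e : l1 b = 0) : P1 x1 x2 := by
  unfold l1 at e
  rcases e1 : g1 b with _ | _
  · rw [e1, cond_false] at e
    have z0 : l0 b = 0 := e
    exact Or.inr (l0_sound h z0)
  · exact Or.inl (((Bool.or_eq_true_iff.mp e1).imp (fun a => pos_sound hS (h173 h) a) (fun a => ((Bool.or_eq_true_iff.mp a).imp (fun a => pos_sound hS (h178 h) a) (fun a => ((Bool.or_eq_true_iff.mp a).imp (fun a => pos_sound hS (h181 h) a) (fun a => ((Bool.or_eq_true_iff.mp a).imp (fun a => pos_sound hS (h174 h) a) (fun a => ((Bool.or_eq_true_iff.mp a).imp (fun a => pos_sound hS (h183 h) a) (fun a => ((Bool.or_eq_true_iff.mp a).imp (fun a => pos_sound hS (h185 h) a) (fun a => ((Bool.or_eq_true_iff.mp a).imp (fun a => pos_sound hS (h186 h) a) (fun a => ((Bool.or_eq_true_iff.mp a).imp (fun a => pos_sound hS (h172 h) a) (fun a => ((Bool.or_eq_true_iff.mp a).imp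 (fun a => pos_sound hS (h187 h) a) (fun a => pos_sound hS (h189 h) a)))))))))))))))))))

def f (b : Bx) : Nat := l1 b

/-- the statement -/
def Q (x1 x2 : ℝ) : Prop := P1 x1 x2

theorem f_sound (b : Bx) (hb : f b = 0) (x1 x2 : ℝ) (hm : Mem S b x1 x2) : Q x1 x2 := by
  obtain ⟨E, h⟩ := pt_of_mem hm
  have h : In b E x1 x2 := h
  unfold f at hb
  have e := hb
  have z1 : l1 b = 0 := e
  exact (l1_sound h z1)

/-- the box -/
def b0 : Bx := ⟨0, 268435456, 268435457, 0, 805306368, 805306369⟩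

theorem chk_all {n : ℕ} {b : Bx} (h : chk f n b = true) (x1 x2 : ℝ) (hm : Mem S b x1 x2) : Q x1 x2 :=
  chk_sound (fun b hb x1 x2 hm => f_sound b hb x1 x2 hm) n b h x1 x2 hm


end Pool.Agent.Strip051.LB.ChB03V1_mm_202
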