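import Pool.Agent.Strip051.LB.ChB03V1_mm_202.Defs
import Pool.Agent.Strip051.LB.Slope
import Pool.Agent.Strip051.LB.Star
import Pool.Agent.Strip051.LB.Cf

/-! # LINE tight chart ChB03V1_mm_202: slopes -/

namespace Pool.Agent.Strip051.LB.ChB03V1_mm_202

open Pool.Agent.Strip051.LB Pool.Agent.Strip051.LB.Fn Pool.Agent.Strip051.LB.Fc Pool.Agent.StripNear

set_option maxRecDepth 100000
set_option linter.all false

noncomputable def v30 (x1 x2 : ℝ) : ℝ := v2 x1 x2 * v1 x1 x2

noncomputable def v31 (x1 x2 : ℝ) : ℝ := -(v30 x1 x2)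

noncomputable def v32 (x1 x2 : ℝ) : ℝ := v31 x1 x2 - v24 x1 x2

noncomputable def v36 (x1 x2 : ℝ) : ℝ := v32 x1 x2 * v35 x1 x2

noncomputable def v40 (x1 x2 : ℝ) : ℝ := v36 x1 x2 * v39 x1 x2

noncomputable def v41 (x1 x2 : ℝ) : ℝ := -(v40 x1 x2)

noncomputable def v45 (x1 x2 : ℝ) : ℝ := v44 x1 x2 - v5 x1 x2

noncomputable def v46 (x1 x2 : ℝ) : ℝ := -(v5 x1 x2)

noncomputable def v49 (x1 x2 : ℝ) : ℝ := (v48 x1 x2) ^ 2

noncomputable def v51 (x1 x2 : ℝ) : ℝ := -(v50 x1 x2)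

noncomputable def v52 (x1 x2 : ℝ) : ℝ := (v18 x1 x2) ^ 2

noncomputable def v54 (x1 x2 : ℝ) : ℝ := -(v53 x1 x2)

noncomputable def v55 (x1 x2 : ℝ) : ℝ := v22 x1 x2 - v52 x1 x2

noncomputable def v60 (x1 x2 : ℝ) : ℝ := (v59 x1 x2) ^ 2

noncomputable def v63 (x1 x2 : ℝ) : ℝ := v49 x1 x2 + v60 x1 x2

noncomputable def v65 (x1 x2 : ℝ) : ℝ := v63 x1 x2 - v5 x1 x2

noncomputable def v71 (x1 x2 : ℝ) : ℝ := v68 x1 x2 - v70 x1 x2

noncomputable def v73 (x1 x2 : ℝ) : ℝ := v71 x1 x2 * v72 x1 x2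

noncomputable def v76 (x1 x2 : ℝ) : ℝ := v73 x1 x2 * v75 x1 x2

noncomputable def v77 (x1 x2 : ℝ) : ℝ := v5 x1 x2 - v60 x1 x2

noncomputable def v78 (x1 x2 : ℝ) : ℝ := -(v62 x1 x2)

noncomputable def v97 (x1 x2 : ℝ) : ℝ := -(v96 x1 x2)

noncomputable def v98 (x1 x2 : ℝ) : ℝ := v88 x1 x2 * v94 x1 x2

noncomputable def v107 (x1 x2 : ℝ) : ℝ := v66 x1 x2 - v68 x1 x2

noncomputable def v108 (x1 x2 : ℝ) : ℝ := v107 x1 x2 * v103 x1 x2

noncomputable def v109 (x1 x2 : ℝ) : ℝ := v76 x1 x2 + v108 x1 x2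

noncomputable def v110 (x1 x2 : ℝ) : ℝ := -(v109 x1 x2)

noncomputable def v111 (x1 x2 : ℝ) : ℝ := -(v98 x1 x2)

noncomputable def v116 (x1 x2 : ℝ) : ℝ := -(v115 x1 x2)

noncomputable def v123 (x1 x2 : ℝ) : ℝ := v0 x1 x2 * v19 x1 x2

noncomputable def v125 (x1 x2 : ℝ) : ℝ := v18 x1 x2 * v7 x1 x2

noncomputable def v126 (x1 x2 : ℝ) : ℝ := -(v7 x1 x2)

noncomputable def v127 (x1 x2 : ℝ) : ℝ := v123 x1 x2 - v125 x1 x2

noncomputable def v129 (x1 x2 : ℝ) : ℝ := v127 x1 x2 * v120 x1 x2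

noncomputable def v131 (x1 x2 : ℝ) : ℝ := v129 x1 x2 - v9 x1 x2

noncomputable def v133 (x1 x2 : ℝ) : ℝ := v24 x1 x2 - v3 x1 x2

noncomputable def v135 (x1 x2 : ℝ) : ℝ := -(v2 x1 x2)

noncomputable def v148 (x1 x2 : ℝ) : ℝ := -(v58 x1 x2)

noncomputable def v151 (x1 x2 : ℝ) : ℝ := -(v150 x1 x2)

noncomputable def v156 (x1 x2 : ℝ) : ℝ := v143 x1 x2 * v152 x1 x2

noncomputable def v160 (x1 x2 : ℝ) : ℝ := -(v156 x1 x2)

noncomputable def v161 (x1 x2 : ℝ) : ℝ := -(v159 x1 x2)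

noncomputable def v163 (x1 x2 : ℝ) : ℝ := v19 x1 x2 - v3 x1 x2

structure Cx (x1 x2 : ℝ) : Prop where
  hc : v7 x1 x2 ^ 2 + x1 ^ 2 = 1
  p23 : 0 < v23 x1 x2
  p56 : 0 < v56 x1 x2
  p67 : 0 < v67 x1 x2
  p79 : 0 < v79 x1 x2
  p74 : 0 < v74 x1 x2
  p93 : 0 < v93 x1 x2
  p104 : 0 < v104 x1 x2
  p106 : 0 < v106 x1 x2
  p38 : 0 < v38 x1 x2
  p149 : 0 < v149 x1 x2

variable {x1 x2 : ℝ}

theorem s3q (x1 x2 : ℝ) : v2 x1 x2 ^ 2 = 3 := by
  rw [v2]; exact s3sq

theorem s3ne (x1 x2 : ℝ) : v2 x1 x2 ≠ 0 := by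
  rw [v2]; positivity

theorem s1 (c : Cx x1 x2) : v1 x1 x2 = v18 x1 x2 + v27 x1 x2 * v46 x1 x2 := by
  simp only [v1, v5, v27, v46]
  (try push_cast)
  first | ring | grind

theorem s21 (c : Cx x1 x2) : v21 x1 x2 = v52 x1 x2 + v27 x1 x2 * v54 x1 x2 := by
  have a0 : (v1 x1 x2 + v18 x1 x2) * v1 x1 x2 = (v1 x1 x2 + v18 x1 x2) * (v18 x1 x2 + v27 x1 x2 * v46 x1 x2) := congrArg (fun z => (v1 x1 x2 + v18 x1 x2) * z) (s1 c)
  try simp only [v1, v5, v21, v27, v46, v52, v53, v54] at a0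
  simp only [v1, v5, v21, v27, v46, v52, v53, v54]
  (try push_cast at a0 ⊢)
  first | linear_combination a0 | ring | grind

theorem s23 (c : Cx x1 x2) : v23 x1 x2 = v55 x1 x2 + v27 x1 x2 * v53 x1 x2 := by
  have a1 := s21 c
  try simp only [v1, v22, v23, v27, v53, v54, v55] at a1
  simp only [v1, v22, v23, v27, v53, v54, v55]
  (try push_cast at a1 ⊢)
  first | linear_combination -a1 | ring | grind

theorem q24 (c : Cx x1 x2) : v55 x1 x2 = v19 x1 x2 ^ 2 := by
  have hc := c.hc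
  have h3 := s3q x1 x2
  simp only [v0, v3, v10, v11, v13, v14, v16, v17, v18, v19, v22, v52, v55] at hc ⊢
  push_cast at hc ⊢
  grind

theorem s24 (c : Cx x1 x2) : v24 x1 x2 = v19 x1 x2 + v27 x1 x2 * v58 x1 x2 := by
  have a0 := s23 c
  have e : 0 < Real.sqrt (v23 x1 x2) + v19 x1 x2 := by
    have e := c.p56
    simp only [v22, v23, v24, v56] at e ⊢
    push_cast at e ⊢
    linarith
  have b := sl_sqrt a0 (q24 c) (le_of_lt c.p23) e
  clear a0
  try simp only [v1, v22, v23, v24, v27, v53, v55, v56, v57, v58] at b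
  simp only [v1, v22, v23, v24, v27, v53, v55, v56, v57, v58]
  (try push_cast at b ⊢)
  first | linear_combination b | ring | grind

theorem s25 (c : Cx x1 x2) : v25 x1 x2 = v48 x1 x2 + v27 x1 x2 * v46 x1 x2 := by
  have a0 := s1 c
  try simp only [v0, v1, v5, v25, v27, v46, v48] at a0
  simp only [v0, v1, v5, v25, v27, v46, v48]
  (try push_cast at a0 ⊢)
  first | linear_combination a0 | ring | grind

theorem s26 (c : Cx x1 x2) : v26 x1 x2 = v59 x1 x2 + v27 x1 x2 * v58 x1 x2 := by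
  have a0 := s24 c
  try simp only [v1, v26, v27, v59] at a0
  simp only [v1, v26, v27, v59]
  (try push_cast at a0 ⊢)
  first | linear_combination a0 | ring | grind

theorem s30 (c : Cx x1 x2) : v30 x1 x2 = v134 x1 x2 + v27 x1 x2 * v135 x1 x2 := by
  have a1 : (v2 x1 x2) * v1 x1 x2 = (v2 x1 x2) * (v18 x1 x2 + v27 x1 x2 * v46 x1 x2) := congrArg (fun z => (v2 x1 x2) * z) (s1 c)
  try simp only [v1, v2, v5, v27, v30, v46, v134, v135] at a1
  simp only [v1, v2, v5, v27, v30, v46, v134, v135]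
  (try push_cast at a1 ⊢)
  first | linear_combination a1 | ring | grind

theorem s31 (c : Cx x1 x2) : v31 x1 x2 = v136 x1 x2 + v27 x1 x2 * v2 x1 x2 := by
  have a0 := s30 c
  try simp only [v1, v2, v27, v31, v135, v136] at a0
  simp only [v1, v2, v27, v31, v135, v136]
  (try push_cast at a0 ⊢)
  first | linear_combination -a0 | ring | grind

theorem s32 (c : Cx x1 x2) : v32 x1 x2 = v137 x1 x2 + v27 x1 x2 * v138 x1 x2 := by
  have a0 := s31 c
  have a1 := s24 c
  try simp only [v1, v2, v27, v31, v32, v136, v137, v138] at a0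
  try simp only [v1, v2, v27, v31, v32, v136, v137, v138] at a1
  simp only [v1, v2, v27, v31, v32, v136, v137, v138]
  (try push_cast at a0 a1 ⊢)
  first | linear_combination a0 - a1 | ring | grind

theorem s33 (c : Cx x1 x2) : v33 x1 x2 = v139 x1 x2 + v27 x1 x2 * v5 x1 x2 := by
  have a1 := s1 c
  try simp only [v1, v5, v22, v27, v33, v46, v139] at a1
  simp only [v1, v5, v22, v27, v33, v46, v139]
  (try push_cast at a1 ⊢)
  first | linear_combination -a1 | ring | grind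

theorem s34 (c : Cx x1 x2) : v34 x1 x2 = v140 x1 x2 + v27 x1 x2 * v84 x1 x2 := by
  have a1 : (v2 x1 x2) * v24 x1 x2 = (v2 x1 x2) * (v19 x1 x2 + v27 x1 x2 * v58 x1 x2) := congrArg (fun z => (v2 x1 x2) * z) (s24 c)
  try simp only [v1, v2, v27, v34, v84, v140] at a1
  simp only [v1, v2, v27, v34, v84, v140]
  (try push_cast at a1 ⊢)
  first | linear_combination a1 | ring | grind

theorem s35 (c : Cx x1 x2) : v35 x1 x2 = v141 x1 x2 + v27 x1 x2 * v142 x1 x2 := by
  have a0 := s33 c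
  have a1 := s34 c
  try simp only [v1, v5, v22, v27, v33, v35, v139, v141, v142] at a0
  try simp only [v1, v5, v22, v27, v33, v35, v139, v141, v142] at a1
  simp only [v1, v5, v22, v27, v33, v35, v139, v141, v142]
  (try push_cast at a0 a1 ⊢)
  first | linear_combination a0 - a1 | ring | grind

theorem s36 (c : Cx x1 x2) : v36 x1 x2 = v143 x1 x2 + v27 x1 x2 * v146 x1 x2 := by
  have a0 : (v35 x1 x2) * v32 x1 x2 = (v35 x1 x2) * (v137 x1 x2 + v27 x1 x2 * v138 x1 x2) := congrArg (fun z => (v35 x1 x2) * z) (s32 c)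
  have a1 : (v137 x1 x2) * v35 x1 x2 = (v137 x1 x2) * (v141 x1 x2 + v27 x1 x2 * v142 x1 x2) := congrArg (fun z => (v137 x1 x2) * z) (s35 c)
  try simp only [v1, v2, v5, v22, v27, v31, v32, v33, v35, v36, v136, v137, v138, v139, v141, v142, v143, v144, v145, v146] at a0
  try simp only [v1, v2, v5, v22, v27, v31, v32, v33, v35, v36, v136, v137, v138, v139, v141, v142, v143, v144, v145, v146] at a1
  simp only [v1, v2, v5, v22, v27, v31, v32, v33, v35, v36, v136, v137, v138, v139, v141, v142, v143, v144, v145, v146]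
  (try push_cast at a0 a1 ⊢)
  first | linear_combination a0 + a1 | ring | grind

theorem s37 (c : Cx x1 x2) : v37 x1 x2 = v147 x1 x2 + v27 x1 x2 * v148 x1 x2 := by
  have a1 := s24 c
  try simp only [v1, v2, v27, v37, v147, v148] at a1
  simp only [v1, v2, v27, v37, v147, v148]
  (try push_cast at a1 ⊢)
  first | linear_combination -a1 | ring | grind

theorem s38 (c : Cx x1 x2) : v38 x1 x2 = v149 x1 x2 + v27 x1 x2 * v151 x1 x2 := by
  have a0 := s37 c
  try simp only [v1, v2, v27, v37, v38, v147, v148, v149, v150, v151] at a0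
  simp only [v1, v2, v27, v37, v38, v147, v148, v149, v150, v151]
  (try push_cast at a0 ⊢)
  first | linear_combination (4 : ℝ) * a0 | ring | grind

theorem s39 (c : Cx x1 x2) : v39 x1 x2 = v152 x1 x2 + v27 x1 x2 * v154 x1 x2 := by
  have a0 := s38 c
  have b := sl_inv a0 (c.p38).ne' (c.p149).ne'
  clear a0
  try simp only [v1, v2, v27, v37, v38, v39, v147, v149, v150, v151, v152, v153, v154] at b
  simp only [v1, v2, v27, v37, v38, v39, v147, v149, v150, v151, v152, v153, v154]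
  (try push_cast at b ⊢)
  first | linear_combination b | ring | grind

theorem s40 (c : Cx x1 x2) : v40 x1 x2 = v156 x1 x2 + v27 x1 x2 * v159 x1 x2 := by
  have a0 : (v39 x1 x2) * v36 x1 x2 = (v39 x1 x2) * (v143 x1 x2 + v27 x1 x2 * v146 x1 x2) := congrArg (fun z => (v39 x1 x2) * z) (s36 c)
  have a1 : (v143 x1 x2) * v39 x1 x2 = (v143 x1 x2) * (v152 x1 x2 + v27 x1 x2 * v154 x1 x2) := congrArg (fun z => (v143 x1 x2) * z) (s39 c)
  try simp only [v1, v27, v40, v146, v156, v157, v158, v159] at a0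
  try simp only [v1, v27, v40, v146, v156, v157, v158, v159] at a1
  simp only [v1, v27, v40, v146, v156, v157, v158, v159]
  (try push_cast at a0 a1 ⊢)
  first | linear_combination a0 + a1 | ring | grind

theorem s41 (c : Cx x1 x2) : v41 x1 x2 = v160 x1 x2 + v27 x1 x2 * v161 x1 x2 := by
  have a0 := s40 c
  try simp only [v1, v27, v41, v159, v160, v161] at a0
  simp only [v1, v27, v41, v159, v160, v161]
  (try push_cast at a0 ⊢)
  first | linear_combination -a0 | ring | grind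

theorem s42 (c : Cx x1 x2) : v42 x1 x2 = v49 x1 x2 + v27 x1 x2 * v51 x1 x2 := by
  have a0 : (v25 x1 x2 + v48 x1 x2) * v25 x1 x2 = (v25 x1 x2 + v48 x1 x2) * (v48 x1 x2 + v27 x1 x2 * v46 x1 x2) := congrArg (fun z => (v25 x1 x2 + v48 x1 x2) * z) (s25 c)
  try simp only [v0, v1, v5, v25, v27, v42, v46, v48, v49, v50, v51] at a0
  simp only [v0, v1, v5, v25, v27, v42, v46, v48, v49, v50, v51]
  (try push_cast at a0 ⊢)
  first | linear_combination a0 | ring | grind

theorem s43 (c : Cx x1 x2) : v43 x1 x2 = v60 x1 x2 + v27 x1 x2 * v62 x1 x2 := by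
  have a0 : (v26 x1 x2 + v59 x1 x2) * v26 x1 x2 = (v26 x1 x2 + v59 x1 x2) * (v59 x1 x2 + v27 x1 x2 * v58 x1 x2) := congrArg (fun z => (v26 x1 x2 + v59 x1 x2) * z) (s26 c)
  try simp only [v1, v26, v27, v43, v59, v60, v61, v62] at a0
  simp only [v1, v26, v27, v43, v59, v60, v61, v62]
  (try push_cast at a0 ⊢)
  first | linear_combination a0 | ring | grind

theorem s44 (c : Cx x1 x2) : v44 x1 x2 = v63 x1 x2 + v27 x1 x2 * v64 x1 x2 := by
  have a0 := s42 c
  have a1 := s43 c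
  try simp only [v0, v1, v25, v27, v44, v48, v50, v51, v63, v64] at a0
  try simp only [v0, v1, v25, v27, v44, v48, v50, v51, v63, v64] at a1
  simp only [v0, v1, v25, v27, v44, v48, v50, v51, v63, v64]
  (try push_cast at a0 a1 ⊢)
  first | linear_combination a0 + a1 | ring | grind

theorem s45 (c : Cx x1 x2) : v45 x1 x2 = v65 x1 x2 + v27 x1 x2 * v64 x1 x2 := by
  have a0 := s44 c
  try simp only [v0, v1, v5, v25, v27, v44, v45, v48, v50, v63, v64, v65] at a0
  simp only [v0, v1, v5, v25, v27, v44, v45, v48, v50, v63, v64, v65]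
  (try push_cast at a0 ⊢)
  first | linear_combination a0 | ring | grind

theorem s67 (c : Cx x1 x2) : v67 x1 x2 = v77 x1 x2 + v27 x1 x2 * v78 x1 x2 := by
  have a1 := s43 c
  try simp only [v1, v5, v27, v67, v77, v78] at a1
  simp only [v1, v5, v27, v67, v77, v78]
  (try push_cast at a1 ⊢)
  first | linear_combination -a1 | ring | grind

theorem q68 (c : Cx x1 x2) : v77 x1 x2 = v69 x1 x2 ^ 2 := by
  have hc := c.hc
  have h3 := s3q x1 x2
  simp only [v0, v3, v5, v10, v11, v17, v19, v59, v60, v69, v77] at hc ⊢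
  push_cast at hc ⊢
  grind

theorem s68 (c : Cx x1 x2) : v68 x1 x2 = v69 x1 x2 + v27 x1 x2 * v82 x1 x2 := by
  have a0 := s67 c
  have e : 0 < Real.sqrt (v67 x1 x2) + v69 x1 x2 := by
    have e := c.p79
    simp only [v0, v5, v10, v67, v68, v69, v79] at e ⊢
    push_cast at e ⊢
    linarith
  have b := sl_sqrt a0 (q68 c) (le_of_lt c.p67) e
  clear a0
  try simp only [v0, v1, v5, v10, v27, v67, v68, v69, v77, v78, v79, v80, v81, v82] at b
  simp only [v0, v1, v5, v10, v27, v67, v68, v69, v77, v78, v79, v80, v81, v82]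
  (try push_cast at b ⊢)
  first | linear_combination b | ring | grind

theorem s70 (c : Cx x1 x2) : v70 x1 x2 = v83 x1 x2 + v27 x1 x2 * v84 x1 x2 := by
  have a1 : (v2 x1 x2) * v26 x1 x2 = (v2 x1 x2) * (v59 x1 x2 + v27 x1 x2 * v58 x1 x2) := congrArg (fun z => (v2 x1 x2) * z) (s26 c)
  try simp only [v1, v2, v26, v27, v59, v70, v83, v84] at a1
  simp only [v1, v2, v26, v27, v59, v70, v83, v84]
  (try push_cast at a1 ⊢)
  first | linear_combination a1 | ring | grind

theorem s71 (c : Cx x1 x2) : v71 x1 x2 = v85 x1 x2 + v27 x1 x2 * v86 x1 x2 := by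
  have a0 := s68 c
  have a1 := s70 c
  try simp only [v0, v1, v10, v27, v69, v71, v82, v85, v86] at a0
  try simp only [v0, v1, v10, v27, v69, v71, v82, v85, v86] at a1
  simp only [v0, v1, v10, v27, v69, v71, v82, v85, v86]
  (try push_cast at a0 a1 ⊢)
  first | linear_combination a0 - a1 | ring | grind

theorem s72 (c : Cx x1 x2) : v72 x1 x2 = v87 x1 x2 + v27 x1 x2 * v82 x1 x2 := by
  have a1 := s68 c
  try simp only [v0, v1, v5, v10, v27, v69, v72, v82, v87] at a1
  simp only [v0, v1, v5, v10, v27, v69, v72, v82, v87]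
  (try push_cast at a1 ⊢)
  first | linear_combination a1 | ring | grind

theorem s73 (c : Cx x1 x2) : v73 x1 x2 = v88 x1 x2 + v27 x1 x2 * v92 x1 x2 := by
  have a0 : (v72 x1 x2) * v71 x1 x2 = (v72 x1 x2) * (v85 x1 x2 + v27 x1 x2 * v86 x1 x2) := congrArg (fun z => (v72 x1 x2) * z) (s71 c)
  have a1 : (v85 x1 x2) * v72 x1 x2 = (v85 x1 x2) * (v87 x1 x2 + v27 x1 x2 * v82 x1 x2) := congrArg (fun z => (v85 x1 x2) * z) (s72 c)
  try simp only [v0, v1, v5, v10, v27, v69, v71, v72, v73, v82, v85, v86, v87, v88, v89, v90, v92] at a0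
  try simp only [v0, v1, v5, v10, v27, v69, v71, v72, v73, v82, v85, v86, v87, v88, v89, v90, v92] at a1
  simp only [v0, v1, v5, v10, v27, v69, v71, v72, v73, v82, v85, v86, v87, v88, v89, v90, v92]
  (try push_cast at a0 a1 ⊢)
  first | linear_combination a0 + a1 | ring | grind

theorem s74 (c : Cx x1 x2) : v74 x1 x2 = v93 x1 x2 + v27 x1 x2 * v86 x1 x2 := by
  have a0 := s72 c
  have a1 := s70 c
  try simp only [v0, v1, v5, v10, v27, v69, v72, v74, v82, v86, v87, v93] at a0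
  try simp only [v0, v1, v5, v10, v27, v69, v72, v74, v82, v86, v87, v93] at a1
  simp only [v0, v1, v5, v10, v27, v69, v72, v74, v82, v86, v87, v93]
  (try push_cast at a0 a1 ⊢)
  first | linear_combination a0 - a1 | ring | grind

theorem s75 (c : Cx x1 x2) : v75 x1 x2 = v94 x1 x2 + v27 x1 x2 * v97 x1 x2 := by
  have a0 := s74 c
  have b := sl_inv a0 (c.p74).ne' (c.p93).ne'
  clear a0
  try simp only [v0, v1, v5, v10, v27, v69, v72, v74, v75, v82, v86, v87, v93, v94, v95, v96, v97] at b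
  simp only [v0, v1, v5, v10, v27, v69, v72, v74, v75, v82, v86, v87, v93, v94, v95, v96, v97]
  (try push_cast at b ⊢)
  first | linear_combination b | ring | grind

theorem s76 (c : Cx x1 x2) : v76 x1 x2 = v98 x1 x2 + v27 x1 x2 * v102 x1 x2 := by
  have a0 : (v75 x1 x2) * v73 x1 x2 = (v75 x1 x2) * (v88 x1 x2 + v27 x1 x2 * v92 x1 x2) := congrArg (fun z => (v75 x1 x2) * z) (s73 c)
  have a1 : (v88 x1 x2) * v75 x1 x2 = (v88 x1 x2) * (v94 x1 x2 + v27 x1 x2 * v97 x1 x2) := congrArg (fun z => (v88 x1 x2) * z) (s75 c)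
  try simp only [v1, v27, v76, v92, v97, v98, v99, v100, v102] at a0
  try simp only [v1, v27, v76, v92, v97, v98, v99, v100, v102] at a1
  simp only [v1, v27, v76, v92, v97, v98, v99, v100, v102]
  (try push_cast at a0 a1 ⊢)
  first | linear_combination a0 + a1 | ring | grind

theorem s117 (c : Cx x1 x2) : v117 x1 x2 = v123 x1 x2 + v27 x1 x2 * v124 x1 x2 := by
  have a1 : (v0 x1 x2) * v24 x1 x2 = (v0 x1 x2) * (v19 x1 x2 + v27 x1 x2 * v58 x1 x2) := congrArg (fun z => (v0 x1 x2) * z) (s24 c)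
  try simp only [v0, v1, v27, v117, v123, v124] at a1
  simp only [v0, v1, v27, v117, v123, v124]
  (try push_cast at a1 ⊢)
  first | linear_combination a1 | ring | grind

theorem s118 (c : Cx x1 x2) : v118 x1 x2 = v125 x1 x2 + v27 x1 x2 * v126 x1 x2 := by
  have a0 : (v7 x1 x2) * v1 x1 x2 = (v7 x1 x2) * (v18 x1 x2 + v27 x1 x2 * v46 x1 x2) := congrArg (fun z => (v7 x1 x2) * z) (s1 c)
  try simp only [v1, v5, v27, v46, v118, v125, v126] at a0
  simp only [v1, v5, v27, v46, v118, v125, v126]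
  (try push_cast at a0 ⊢)
  first | linear_combination a0 | ring | grind

theorem s119 (c : Cx x1 x2) : v119 x1 x2 = v127 x1 x2 + v27 x1 x2 * v128 x1 x2 := by
  have a0 := s117 c
  have a1 := s118 c
  try simp only [v1, v27, v119, v126, v127, v128] at a0
  try simp only [v1, v27, v119, v126, v127, v128] at a1
  simp only [v1, v27, v119, v126, v127, v128]
  (try push_cast at a0 a1 ⊢)
  first | linear_combination a0 - a1 | ring | grind

theorem s121 (c : Cx x1 x2) : v121 x1 x2 = v129 x1 x2 + v27 x1 x2 * v130 x1 x2 := by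
  have a0 : (v120 x1 x2) * v119 x1 x2 = (v120 x1 x2) * (v127 x1 x2 + v27 x1 x2 * v128 x1 x2) := congrArg (fun z => (v120 x1 x2) * z) (s119 c)
  try simp only [v1, v27, v119, v121, v127, v128, v129, v130] at a0
  simp only [v1, v27, v119, v121, v127, v128, v129, v130]
  (try push_cast at a0 ⊢)
  first | linear_combination a0 | ring | grind

theorem s122 (c : Cx x1 x2) : v122 x1 x2 = v131 x1 x2 + v27 x1 x2 * v130 x1 x2 := by
  have a0 := s121 c
  try simp only [v1, v9, v27, v122, v131] at a0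
  simp only [v1, v9, v27, v122, v131]
  (try push_cast at a0 ⊢)
  first | linear_combination a0 | ring | grind

theorem s133 (c : Cx x1 x2) : v133 x1 x2 = v163 x1 x2 + v27 x1 x2 * v58 x1 x2 := by
  have a0 := s24 c
  try simp only [v1, v2, v3, v27, v133, v163] at a0
  simp only [v1, v2, v3, v27, v133, v163]
  (try push_cast at a0 ⊢)
  first | linear_combination a0 | ring | grind

theorem bD (c : Cx x1 x2) : v65 x1 x2 = 0 := by
  have hc := c.hc
  have h3 := s3q x1 x2
  simp only [v0, v3, v5, v10, v11, v13, v14, v16, v17, v18, v19, v48, v49, v59, v60, v63, v65] at hc ⊢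
  push_cast at hc ⊢
  grind

theorem sD (c : Cx x1 x2) : v45 x1 x2 = v27 x1 x2 * v64 x1 x2 := by
  have h := s45 c
  rw [bD c, zero_add] at h
  exact h

theorem s110 (c : Cx x1 x2) : v110 x1 x2 = v111 x1 x2 + v27 x1 x2 * v116 x1 x2 := by
  have hA := s76 c
  have hd := sD c
  have hs := c.p104
  have hc : v68 x1 x2 ^ 2 = v67 x1 x2 := by
    rw [v68]; exact Real.sq_sqrt (le_of_lt c.p67)
  have hx : v66 x1 x2 - v68 x1 x2 = v45 x1 x2 * (v104 x1 x2)⁻¹ := by
    have g : v66 x1 x2 ^ 2 - v68 x1 x2 ^ 2 = v45 x1 x2 := by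
      rw [hc]; simp only [v0, v1, v5, v25, v26, v42, v43, v44, v45, v66, v67, v104]; push_cast; ring
    have g3 : v104 x1 x2 = v66 x1 x2 + v68 x1 x2 := by
      simp only [v0, v1, v5, v25, v26, v42, v43, v44, v45, v66, v67, v104]; try push_cast
      try ring
    have g2 : 0 < v66 x1 x2 + v68 x1 x2 := by rw [← g3]; exact hs
    rw [g3]; exact diff_of_sq g g2
  have hy : v103 x1 x2 * (v66 x1 x2 - v68 x1 x2) = v103 x1 x2 * (v45 x1 x2 * (v104 x1 x2)⁻¹) := congrArg (fun z => v103 x1 x2 * z) hx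
  have hK : v103 x1 x2 * (v104 x1 x2)⁻¹ * v45 x1 x2 = v103 x1 x2 * (v104 x1 x2)⁻¹ * (v27 x1 x2 * v64 x1 x2) := congrArg (fun z => v103 x1 x2 * (v104 x1 x2)⁻¹ * z) hd
  try simp only [v0, v1, v5, v25, v27, v44, v45, v48, v50, v64, v66, v102, v104, v107, v108, v109, v110, v111, v112, v113, v114, v115, v116] at hA
  try simp only [v0, v1, v5, v25, v27, v44, v45, v48, v50, v64, v66, v102, v104, v107, v108, v109, v110, v111, v112, v113, v114, v115, v116] at hy
  try simp only [v0, v1, v5, v25, v27, v44, v45, v48, v50, v64, v66, v102, v104, v107, v108, v109, v110, v111, v112, v113, v114, v115, v116] at hK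
  simp only [v0, v1, v5, v25, v27, v44, v45, v48, v50, v64, v66, v102, v104, v107, v108, v109, v110, v111, v112, v113, v114, v115, v116]
  (try push_cast at hA hy hK ⊢)
  first | linear_combination -(hA + hy + hK) | grind

theorem bE (c : Cx x1 x2) : v131 x1 x2 = 0 := by
  have hc := c.hc
  have h3 := s3q x1 x2
  have g0 : v2 x1 x2 ≠ 0 := s3ne x1 x2
  simp only [v0, v3, v9, v10, v11, v13, v14, v16, v17, v18, v19, v120, v123, v125, v127, v129, v131] at hc ⊢
  push_cast at hc ⊢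
  grind

theorem hE (c : Cx x1 x2) : v122 x1 x2 = v27 x1 x2 * v130 x1 x2 := by
  have h := s122 c
  rw [bE c, zero_add] at h
  exact h

theorem bS (c : Cx x1 x2) : v160 x1 x2 - v0 x1 x2 - v111 x1 x2 = 0 := by
  have hc := c.hc
  have h3 := s3q x1 x2
  have g0 := (c.p93).ne'
  have g1 := (c.p149).ne'
  simp only [v0, v3, v5, v10, v11, v13, v14, v16, v17, v18, v19, v22, v59, v69, v83, v85, v87, v88, v93, v94, v98, v111, v134, v136, v137, v139, v140, v141, v143, v147, v149, v152, v156, v160] at hc g0 g1 ⊢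
  push_cast at hc g0 g1 ⊢
  grind

theorem hS (c : Cx x1 x2) : v41 x1 x2 - v0 x1 x2 - v110 x1 x2 = v27 x1 x2 * v162 x1 x2 := by
  have a3 := s41 c
  have a2 := s110 c
  have b := bS c
  try simp only [v0, v1, v27, v41, v102, v109, v110, v111, v115, v116, v159, v160, v161, v162] at a3
  try simp only [v0, v1, v27, v41, v102, v109, v110, v111, v115, v116, v159, v160, v161, v162] at a2
  try simp only [v0, v1, v27, v41, v102, v109, v110, v111, v115, v116, v159, v160, v161, v162] at b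
  try simp only [v0, v1, v27, v41, v102, v109, v110, v111, v115, v116, v159, v160, v161, v162]
  (try push_cast at a3 a2 b ⊢)
  first | linear_combination a3 - a2 + b | grind

theorem bC (c : Cx x1 x2) : v132 x1 x2 * v160 x1 x2 - v163 x1 x2 * v0 x1 x2 = 0 := by
  have hc := c.hc
  have h3 := s3q x1 x2
  have g0 := (c.p149).ne'
  simp only [v0, v3, v10, v11, v13, v14, v16, v17, v18, v19, v22, v132, v134, v136, v137, v139, v140, v141, v143, v147, v149, v152, v156, v160, v163] at hc g0 ⊢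
  push_cast at hc g0 ⊢
  grind

theorem hC (c : Cx x1 x2) : v132 x1 x2 * v41 x1 x2 - v133 x1 x2 * v0 x1 x2 = v27 x1 x2 * v167 x1 x2 := by
  have a2 : v132 x1 x2 * v41 x1 x2 = v132 x1 x2 * (v160 x1 x2 + v27 x1 x2 * v161 x1 x2) := congrArg (fun z => v132 x1 x2 * z) (s41 c)
  have a3 : v0 x1 x2 * v133 x1 x2 = v0 x1 x2 * (v163 x1 x2 + v27 x1 x2 * v58 x1 x2) := congrArg (fun z => v0 x1 x2 * z) (s133 c)
  have b := bC c
  try simp only [v0, v1, v2, v3, v27, v41, v132, v133, v159, v160, v161, v163, v164, v165, v166, v167] at a2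
  try simp only [v0, v1, v2, v3, v27, v41, v132, v133, v159, v160, v161, v163, v164, v165, v166, v167] at a3
  try simp only [v0, v1, v2, v3, v27, v41, v132, v133, v159, v160, v161, v163, v164, v165, v166, v167] at b
  simp only [v0, v1, v2, v3, v27, v41, v132, v133, v159, v160, v161, v163, v164, v165, v166, v167]
  (try push_cast at a2 a3 b ⊢)
  first | linear_combination a2 - a3 + b | grind

theorem hT (x1 x2 : ℝ) : v133 x1 x2 = v132 x1 x2 + v26 x1 x2 := by
  simp only [v2, v3, v26, v132, v133]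
  push_cast
  ring

theorem hG (c : Cx x1 x2) : v26 x1 x2 * (-v0 x1 x2) - v132 x1 x2 * (-v110 x1 x2) = v27 x1 x2 * v169 x1 x2 := by
  have b := hC c
  have m0 : v132 x1 x2 * (v41 x1 x2 - v0 x1 x2 - v110 x1 x2) = v132 x1 x2 * (v27 x1 x2 * v162 x1 x2) := congrArg (fun z => v132 x1 x2 * z) (hS c)
  have m1 : v0 x1 x2 * v133 x1 x2 = v0 x1 x2 * (v132 x1 x2 + v26 x1 x2) := congrArg (fun z => v0 x1 x2 * z) (hT x1 x2)
  try simp only [v0, v1, v2, v3, v26, v27, v41, v102, v109, v110, v115, v132, v133, v159, v162, v165, v167, v168, v169] at b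
  try simp only [v0, v1, v2, v3, v26, v27, v41, v102, v109, v110, v115, v132, v133, v159, v162, v165, v167, v168, v169] at m0
  try simp only [v0, v1, v2, v3, v26, v27, v41, v102, v109, v110, v115, v132, v133, v159, v162, v165, v167, v168, v169] at m1
  try simp only [v0, v1, v2, v3, v26, v27, v41, v102, v109, v110, v115, v132, v133, v159, v162, v165, v167, v168, v169]
  (try push_cast at b m0 m1 ⊢)
  first | linear_combination b - m0 + m1 | grind

theorem core (c : Cx x1 x2) (hW : 0 ≤ v27 x1 x2) (hWQ : 0 ≤ v27 x1 x2 * v175 x1 x2) (h1 : 0 ≤ v132 x1 x2) (h2 : 0 ≤ v26 x1 x2) (h3 : v132 x1 x2 + v26 x1 x2 ≤ Pool.Agent.StripNear.h0) :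
    0 ≤ starn_v (v122 x1 x2) (v132 x1 x2) (v26 x1 x2) ((-v0 x1 x2)) ((-v110 x1 x2)) ((-v41 x1 x2)) := by
  have hD : (-v0 x1 x2) + (-v110 x1 x2) - (-v41 x1 x2) = v27 x1 x2 * v162 x1 x2 := by
    have b := hS c
    linear_combination b
  have k := starn_ge hW h1 h2 h3 (hE c) hD (hG c)
  refine le_trans hWQ (le_trans (le_of_eq ?_) k)
  rw [v175]

end Pool.Agent.Strip051.LB.ChB03V1_mm_202
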